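import Mathlib
import Pool.Agent.Y298.GA.Stm
import Pool.Agent.Y298.CD.Grw

/-!
# The start for the families `z ^ d + w + a z`
-/

set_option autoImplicit false

open Set Filter Metric MeasureTheory

namespace Pool.Agent.Y576.GA

open Pool.Agent.TH279.MD Pool.Agent.Y298.SH Pool.Agent.Y298.SH.CD Pool.Agent.Y298.GA
open Pool.Agent.H712R2 (P)

/-- The family `w + a z` is slow over the ball. -/
theorem cv_add {a : ℂ → ℂ} {c₁ : ℂ} {s : ℝ} (ha : DifferentiableOn ℂ a (ball (0 : ℂ) 8))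
    (ha1 : ∀ z ∈ ball (0 : ℂ) 8, ‖a z‖ ≤ s / 2) (ha2 : ∀ z ∈ ball (0 : ℂ) 8, ‖deriv a z‖ ≤ s / 2) :
    Cv c₁ s 1 c₁ (s / 2) (fun w z => w + a z) := by
  have hs : ∀ w ∈ ball c₁ (s / 2), 0 < s := by
    intro w hw
    rw [mem_ball, dist_eq_norm] at hw
    linarith [norm_nonneg (w - c₁)]
  refine ⟨?_, ?_, ?_, ?_⟩
  · refine DifferentiableOn.add differentiableOn_fst ?_
    exact DifferentiableOn.comp (g := a) (f := fun p : ℂ × ℂ => p.2) (t := ball (0 : ℂ) 8) ha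
      differentiableOn_snd (fun p hp => hp.2)
  · intro w hw z hz
    rw [mem_ball, dist_eq_norm] at hw
    have h1 := ha1 z hz
    calc ‖w + a z - c₁‖ = ‖(w - c₁) + a z‖ := by congr 1; ring
      _ ≤ ‖w - c₁‖ + ‖a z‖ := norm_add_le _ _
      _ ≤ s := by linarith
  · intro w hw z hz
    have h1 := ha2 z hz
    have h2 := hs w hw
    have h3 : deriv ((fun w z => w + a z : ℂ → ℂ → ℂ) w) z = deriv a z := by
      change deriv (fun z => w + a z) z = deriv a z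
      rw [deriv_const_add]
    rw [h3]
    linarith
  · intro w hw z hz
    have h3 : deriv (fun w' => (fun w z => w + a z : ℂ → ℂ → ℂ) w' z) w = 1 := by
      change deriv (fun w' => w' + a z) w = 1
      rw [deriv_add_const, deriv_id'']
    rw [h3, norm_one]

theorem der_sum_add {a : ℂ → ℂ} {c₁ : ℂ} {s : ℝ} {d : ℕ}
    (H : Cv c₁ s 1 c₁ (s / 2) (fun w z => w + a z)) {v : ℂ} (hv : v ∈ ball c₁ (s / 2)) (n : ℕ)
    (hz : ∀ j < n, GG d (fun w z => w + a z) j v ∈ ball (0 : ℂ) 8)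
    (hne : ∀ j ≤ n, DD d (fun w z => w + a z) j v ≠ 0) :
    HasDerivAt (GG d (fun w z => w + a z) n) (DD d (fun w z => w + a z) n v *
      ∑ j ∈ Finset.range (n + 1), (DD d (fun w z => w + a z) j v)⁻¹) v := by
  induction n with
  | zero =>
    rw [zero_add, Finset.sum_range_one, DD_zero, inv_one, mul_one, GG_zero]
    exact hasDerivAt_id' v
  | succ n ih =>
    have ih' := ih (fun j hj => hz j (by omega)) (fun j hj => hne j (by omega))
    have h1 := H.hasDeriv d hv ih'.differentiableAt (hz n (by omega))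
    refine h1.congr_deriv ?_
    have h2 := H.DD_succ d hv (n := n) (fun j hj => hz j (by omega))
    have h3 := hne (n + 1) le_rfl
    have h4 : deriv (fun w' => (fun w z => w + a z : ℂ → ℂ → ℂ) w'
        (GG d (fun w z => w + a z) n v)) v = 1 := by
      change deriv (fun w' => w' + a (GG d (fun w z => w + a z) n v)) v = 1
      rw [deriv_add_const, deriv_id'']
    rw [ih'.deriv, h4, Finset.sum_range_succ _ (n + 1), mul_add, mul_inv_cancel₀ h3, h2]
    ring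

theorem start (hpe : S_PE) : S_START := by
  intro d C₁ lam θ B Ca hd hC1 hlam hθ hPC c₀ h
  obtain ⟨κg, εg, J, hκg, hεg, hgrow⟩ := h.grow
  have hl0 : 0 < lam := by linarith
  set r : ℝ := 1 / lam with hr
  have hr0 : 0 < r := by positivity
  have hr1 : r < 1 := by rw [hr, div_lt_one hl0]; exact hlam
  have hgeo : Summable fun n : ℕ => 3 * C₁ * r ^ n :=
    (summable_geometric_of_lt_one hr0.le hr1).mul_left _
  obtain ⟨J₀, hJ₀⟩ : ∃ J₀ : ℕ, ∑' j, 3 * C₁ * r ^ (j + J₀) ≤ κg / 4 := by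
    have h1 := tendsto_sum_nat_add (fun m => 3 * C₁ * r ^ m)
    obtain ⟨m₀, hm₀⟩ := (h1.eventually (gt_mem_nhds (by positivity : 0 < κg / 4))).exists
    exact ⟨m₀, hm₀.le⟩
  have hgeoJ : Summable fun j : ℕ => 3 * C₁ * r ^ (j + J₀) := (summable_nat_add_iff J₀).mpr hgeo
  obtain ⟨C, hC, HC⟩ := hpe d J₀ hd
  obtain ⟨L, hL1, HL⟩ := tay d J₀
  have hL0 : 0 < L := by linarith
  set M : ℝ := 4 * (J₀ + 1) * (2 * (C + L) * C₁ ^ 2) with hM
  have hM0 : 0 < M := by positivity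
  set s₀ : ℝ := min 1 (min (1 / C) (κg / M)) with hs₀
  have hs₀0 : 0 < s₀ := lt_min one_pos (lt_min (by positivity) (by positivity))
  have hs₀1 : s₀ ≤ 1 := min_le_left _ _
  have hs₀2 : C * s₀ ≤ 1 := by
    have h1 : s₀ ≤ 1 / C := (min_le_right _ _).trans (min_le_left _ _)
    rw [le_div_iff₀ hC] at h1
    linarith
  have hs₀3 : M * s₀ ≤ κg := by
    have h1 : s₀ ≤ κg / M := (min_le_right _ _).trans (min_le_right _ _)
    rw [le_div_iff₀ hM0] at h1
    linarith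
  refine ⟨3 / 8 * κg, εg, s₀, max J J₀, by positivity, hεg, hs₀0, hs₀1, ?_⟩
  intro c₁ hc₁ hcc a s k hs0 hss hJk hk ha ha1 ha2 v hv
  have hJk1 : J ≤ k := (le_max_left _ _).trans hJk
  have hJk2 : J₀ ≤ k := (le_max_right _ _).trans hJk
  have hs1 : s ≤ 1 := hss.trans hs₀1
  have H := cv_add (c₁ := c₁) ha ha1 ha2
  have hv' : ‖v - c₁‖ < s / 2 := by
    rwa [mem_ball, dist_eq_norm] at hv
  have hc2 : ‖c₁‖ ≤ 2 := hc₁.bd 0
  have hv3 : ‖v‖ ≤ 3 := by
    calc ‖v‖ = ‖(v - c₁) + c₁‖ := by congr 1; ring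
      _ ≤ ‖v - c₁‖ + ‖c₁‖ := norm_add_le _ _
      _ ≤ 3 := by linarith
  set hh : ℂ → ℂ → ℂ := fun w z => w + a z with hhh
  -- the passage
  have hpass := hPC.pass c₁ hc₁ (hh v) s k hs0 hs1 (fun z hz =>
      (H.diff2 hv hz).differentiableWithinAt) (fun z hz => H.near v hv z hz)
      (fun z hz => H.vert v hv z hz) hk v (by
        rw [mem_ball, dist_eq_norm]
        linarith)
  have hDD : ∀ j ≤ k, 3 / 4 * Pd d c₁ j ≤ ‖DD d hh j v‖ := fun j hj => (hpass j hj).2.1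
  have hDD0 : ∀ j ≤ k, DD d hh j v ≠ 0 := by
    intro j hj
    have h1 := hDD j hj
    have h2 := hc₁.Pd_pos j
    rw [← norm_pos_iff]
    linarith
  have hGG : ∀ j < k, ‖GG d hh j v‖ ≤ 3 := by
    intro j hj
    have h1 := (hpass j hj.le).2.2.2 hj
    have h2 := hc₁.bd j
    change ‖GG d hh j v - zz d c₁ j‖ ≤ _ at h1
    calc ‖GG d hh j v‖ = ‖(GG d hh j v - zz d c₁ j) + zz d c₁ j‖ := by congr 1; ring
      _ ≤ ‖GG d hh j v - zz d c₁ j‖ + ‖zz d c₁ j‖ := norm_add_le _ _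
      _ ≤ 3 := by linarith
  have hGG8 : ∀ j < k, GG d hh j v ∈ ball (0 : ℂ) 8 := by
    intro j hj
    rw [mem_ball_zero_iff]
    linarith [hGG j hj]
  have hder := der_sum_add H hv k hGG8 hDD0
  refine ⟨hder.differentiableAt, ?_⟩
  -- the frozen family
  have hne : ∀ j ≤ k, deriv ((f d c₁)^[j]) c₁ ≠ 0 := by
    intro j hj
    exact norm_pos_iff.mp (hc₁.Pd_pos j)
  have hPk := hc₁.Pd_pos k
  have hg := hgrow c₁ hc₁ c₁ hcc k hJk1 (fun j _ => by
    have h1 : Pd d c₁ j = ‖deriv ((f d c₁)^[j]) c₁‖ := rfl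
    have h2 := hc₁.Pd_pos j
    rw [← h1]
    linarith)
  rw [P_succ_eq hd, (der_sum d hd c₁ k hne).deriv, norm_mul] at hg
  have hS : κg ≤ ‖∑ j ∈ Finset.range (k + 1), bb d c₁ j‖ := by
    change κg * Pd d c₁ k ≤ Pd d c₁ k * ‖∑ j ∈ Finset.range (k + 1), bb d c₁ j‖ at hg
    rw [mul_comm] at hg
    exact le_of_mul_le_mul_left hg hPk
  -- the inverses
  have hinv : ∀ j ≤ k, ‖(DD d hh j v)⁻¹‖ ≤ 2 * C₁ * r ^ j := by
    intro j hj
    have h3 := hDD j hj
    have h4 := hc₁.Pd_pos j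
    have h5 := hc₁.bb_le j
    rw [norm_bb] at h5
    rw [norm_inv]
    calc ‖DD d hh j v‖⁻¹ ≤ (3 / 4 * Pd d c₁ j)⁻¹ := inv_anti₀ (by positivity) h3
      _ = 4 / 3 * (Pd d c₁ j)⁻¹ := by rw [mul_inv, inv_div]
      _ ≤ 4 / 3 * (C₁ * (1 / lam) ^ j) := by gcongr
      _ ≤ 2 * (C₁ * (1 / lam) ^ j) := by
          gcongr
          norm_num
      _ = _ := by rw [← hr]; ring
  have hdiff : ∀ j ≤ k, ‖(DD d hh j v)⁻¹ - bb d c₁ j‖ ≤ 3 * C₁ * r ^ j := by
    intro j hj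
    have h1 := hinv j hj
    have h2 := hc₁.bb_le j
    rw [← hr] at h2
    calc _ ≤ ‖(DD d hh j v)⁻¹‖ + ‖bb d c₁ j‖ := norm_sub_le _ _
      _ ≤ 2 * C₁ * r ^ j + C₁ * r ^ j := add_le_add h1 h2
      _ = _ := by ring
  have hfirst : ∀ j < J₀, ‖(DD d hh j v)⁻¹ - bb d c₁ j‖ ≤ 2 * (C + L) * C₁ ^ 2 * s := by
    intro j hj
    have h1 := (HC c₁ s 1 c₁ (s / 2) hh hc2 hs0.le (by nlinarith) H j hj.le v hv (by linarith)
      (fun i hi => Or.inl (by linarith [hGG i (by omega)]))).2.2.2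
    have h2 := (HL c₁ c₁ v c₁ (by linarith) (by linarith) (by linarith) (by linarith) j hj.le).2
    rw [sub_self, norm_zero, zero_add] at h2
    have h3 : ‖DD d hh j v - deriv ((f d c₁)^[j]) c₁‖ ≤ (C + L) * s := by
      calc ‖DD d hh j v - deriv ((f d c₁)^[j]) c₁‖
          = ‖(DD d hh j v - deriv ((f d c₁)^[j]) v) +
            (deriv ((f d c₁)^[j]) v - deriv ((f d c₁)^[j]) c₁)‖ := by congr 1; ring
        _ ≤ C * s + L * ‖v - c₁‖ := (norm_add_le _ _).trans (add_le_add h1 h2)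
        _ ≤ C * s + L * s := by
            gcongr
            linarith
        _ = _ := by ring
    have hj2 : j ≤ k := by omega
    have h4 := hDD0 j hj2
    have h5 := hne j hj2
    have h6 : (DD d hh j v)⁻¹ - bb d c₁ j = -((DD d hh j v)⁻¹ *
        (DD d hh j v - deriv ((f d c₁)^[j]) c₁) * bb d c₁ j) := by
      unfold bb
      field_simp
      ring
    have h7 : ‖(DD d hh j v)⁻¹‖ ≤ 2 * C₁ := by
      refine (hinv j hj2).trans ?_
      exact mul_le_of_le_one_right (by positivity) (pow_le_one₀ hr0.le hr1.le)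
    have h8 : ‖bb d c₁ j‖ ≤ C₁ := by
      refine (hc₁.bb_le j).trans ?_
      rw [← hr]
      exact mul_le_of_le_one_right (by positivity) (pow_le_one₀ hr0.le hr1.le)
    rw [h6, norm_neg, norm_mul, norm_mul]
    calc _ ≤ 2 * C₁ * ((C + L) * s) * C₁ := by gcongr
      _ = _ := by ring
  -- the sum
  have hsum : ‖∑ j ∈ Finset.range (k + 1), ((DD d hh j v)⁻¹ - bb d c₁ j)‖ ≤ κg / 2 := by
    obtain ⟨m, hm⟩ : ∃ m, k + 1 = J₀ + m := ⟨k + 1 - J₀, by omega⟩
    rw [hm, Finset.sum_range_add]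
    have h1 : ‖∑ j ∈ Finset.range J₀, ((DD d hh j v)⁻¹ - bb d c₁ j)‖ ≤ κg / 4 := by
      refine (norm_sum_le _ _).trans ?_
      calc ∑ j ∈ Finset.range J₀, ‖(DD d hh j v)⁻¹ - bb d c₁ j‖
          ≤ ∑ j ∈ Finset.range J₀, 2 * (C + L) * C₁ ^ 2 * s := by
            apply Finset.sum_le_sum
            intro j hj
            exact hfirst j (Finset.mem_range.mp hj)
        _ = J₀ * (2 * (C + L) * C₁ ^ 2 * s) := by
            rw [Finset.sum_const, Finset.card_range, nsmul_eq_mul]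
        _ ≤ (J₀ + 1) * (2 * (C + L) * C₁ ^ 2 * s₀) := by
            have hj1 : (J₀ : ℝ) ≤ J₀ + 1 := (lt_add_one _).le
            have hj2 : 2 * (C + L) * C₁ ^ 2 * s ≤ 2 * (C + L) * C₁ ^ 2 * s₀ :=
              mul_le_mul_of_nonneg_left hss (by positivity)
            exact mul_le_mul hj1 hj2 (by positivity) (by positivity)
        _ = M * s₀ / 4 := by rw [hM]; ring
        _ ≤ κg / 4 := div_le_div_of_nonneg_right hs₀3 (by norm_num)
    have h2 : ‖∑ j ∈ Finset.range m, ((DD d hh (J₀ + j) v)⁻¹ - bb d c₁ (J₀ + j))‖ ≤ κg / 4 := by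
      refine (norm_sum_le _ _).trans ?_
      calc ∑ j ∈ Finset.range m, ‖(DD d hh (J₀ + j) v)⁻¹ - bb d c₁ (J₀ + j)‖
          ≤ ∑ j ∈ Finset.range m, 3 * C₁ * r ^ (j + J₀) := by
            apply Finset.sum_le_sum
            intro j hj
            rw [Finset.mem_range] at hj
            have h5 := hdiff (J₀ + j) (by omega)
            rwa [add_comm J₀ j] at h5 ⊢
        _ ≤ ∑' j, 3 * C₁ * r ^ (j + J₀) := hgeoJ.sum_le_tsum _ (fun j _ => by positivity)
        _ ≤ κg / 4 := hJ₀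
    calc _ ≤ _ := norm_add_le _ _
      _ ≤ κg / 4 + κg / 4 := add_le_add h1 h2
      _ = κg / 2 := by ring
  have hSD : κg / 2 ≤ ‖∑ j ∈ Finset.range (k + 1), (DD d hh j v)⁻¹‖ := by
    rw [Finset.sum_sub_distrib] at hsum
    have h1 : ‖∑ j ∈ Finset.range (k + 1), bb d c₁ j‖ ≤
        ‖∑ j ∈ Finset.range (k + 1), (DD d hh j v)⁻¹‖ +
        ‖∑ j ∈ Finset.range (k + 1), (DD d hh j v)⁻¹ - ∑ j ∈ Finset.range (k + 1), bb d c₁ j‖ := by
      calc ‖∑ j ∈ Finset.range (k + 1), bb d c₁ j‖ =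
          ‖∑ j ∈ Finset.range (k + 1), (DD d hh j v)⁻¹ -
            (∑ j ∈ Finset.range (k + 1), (DD d hh j v)⁻¹ -
              ∑ j ∈ Finset.range (k + 1), bb d c₁ j)‖ := by congr 1; ring
        _ ≤ _ := norm_sub_le _ _
    linarith
  rw [hder.deriv, norm_mul]
  calc 3 / 8 * κg * Pd d c₁ k = (3 / 4 * Pd d c₁ k) * (κg / 2) := by ring
    _ ≤ _ := mul_le_mul (hDD k le_rfl) hSD (by positivity) (norm_nonneg _)

end Pool.Agent.Y576.GA
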